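import Pool.Agent.Helper41.LK.CFAb

/-! # Module CFAa -/

namespace Pool.Agent.Helper42.LK

open Pool.Agent.Helper42.LS

/-- The real inequalities behind CFAa. -/
theorem CFAa_real {M1 M2 k Q δ u v s : ℝ} (hk : 0 < k) (hkM : k ≤ M2) (h21 : M2 ≤ M1)
    (hM1 : M1 ≤ 1 / 4) (hQ1 : M1 * M2 ≤ Q) (hQ2 : k ≤ Q) (hQ3 : Q ≤ M2)
    (hδ0 : 0 < δ) (hδ : δ ≤ 2 * M1) (hδ2 : 2 * M2 < M1 → M1 / 2 ≤ δ)
    (F1 : Q ^ 2 ≤ 144 * (u * v * δ ^ 2)) (F2 : u * v * δ ^ 2 ≤ 202 * Q ^ 2)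
    (F3 : s * δ ^ 2 ≤ 34 * (M1 * M2)) (F3' : 8 * k ≤ M2 → 8 * (M1 * M2) ≤ s * δ ^ 2)
    (hs0 : 0 ≤ s) (hsu : s ≤ 2 * u) (hkv : k ≤ v) (hvu : v ≤ u)
    (F4 : ∀ a, s ≤ a → 36 * Q ^ 2 ≤ 2 * a ^ 2 * δ ^ 2 → k ≤ 2 * a → u ≤ 2 * a) :
    M2 / M1 ≤ 200000 * min 1 u ∧ min 1 u ≤ 200000 * (M2 / M1) ∧
    Q ^ 2 / (M1 * M2) ≤ 200000 * min 1 v ∧ min 1 v ≤ 200000 * (Q ^ 2 / (M1 * M2)) := by
  have hM2 : 0 < M2 := hk.trans_le hkM
  have hM1' : 0 < M1 := hM2.trans_le h21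
  have hMM : 0 < M1 * M2 := mul_pos hM1' hM2
  have hu : 0 < u := hk.trans_le (hkv.trans hvu)
  have hv : 0 < v := hk.trans_le hkv
  have hQ : 0 < Q := hk.trans_le hQ2
  have hr1 : M2 / M1 ≤ 1 := (div_le_one hM1').mpr h21
  have hQQ : Q ^ 2 / (M1 * M2) ≤ 1 := by
    rw [div_le_one hMM]; nlinarith
  have hδ2' : δ ^ 2 ≤ 4 * M1 ^ 2 := by nlinarith
  have hδ2p : 0 < δ ^ 2 := by positivity
  have huv : 0 < u * v := mul_pos hu hv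
  have F1' : Q ^ 2 ≤ 576 * (u * v) * M1 ^ 2 := by
    calc Q ^ 2 ≤ 144 * (u * v * δ ^ 2) := F1
      _ ≤ 144 * (u * v * (4 * M1 ^ 2)) := by gcongr
      _ = _ := by ring
  rw [mul_min_of_nonneg _ _ (by norm_num), mul_min_of_nonneg _ _ (by norm_num)]
  by_cases hc : 2 * M2 < M1
  · have hδ3 := hδ2 hc
    have hδ4 : M1 ^ 2 / 4 ≤ δ ^ 2 := by nlinarith
    -- upper bound for `u`
    have hs1 : s ≤ 136 * (M2 / M1) := by
      have h1 : s * (M1 ^ 2 / 4) ≤ 34 * (M1 * M2) :=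
        (mul_le_mul_of_nonneg_left hδ4 hs0).trans F3
      have h2 : (s * M1) * M1 ≤ (136 * M2) * M1 := by nlinarith
      have h3 := le_of_mul_le_mul_right h2 hM1'
      have h4 : 136 * (M2 / M1) = 136 * M2 / M1 := by ring
      rw [h4, le_div_iff₀ hM1']
      exact h3
    have hu1 : u ≤ 2 * (136 * (M2 / M1)) := by
      refine F4 _ hs1 ?_ ?_
      · have h1 : (M2 / M1) * M1 = M2 := div_mul_cancel₀ _ hM1'.ne'
        have h2 : (M2 / M1) ^ 2 * M1 ^ 2 = M2 ^ 2 := by rw [← mul_pow, h1]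
        have h3 : (M2 / M1) ^ 2 * (M1 ^ 2 / 4) ≤ (M2 / M1) ^ 2 * δ ^ 2 := by gcongr
        have h4 : Q ^ 2 ≤ M2 ^ 2 := by gcongr
        nlinarith
      · have h1 : M2 ≤ M2 / M1 := by
          rw [le_div_iff₀ hM1']; nlinarith
        linarith
    have hu1' : u * M1 ≤ 272 * M2 := by
      have h1 : (M2 / M1) * M1 = M2 := div_mul_cancel₀ _ hM1'.ne'
      nlinarith
    -- lower bound for `u`
    have hu2 : M2 ≤ 192 * (u * M1) := by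
      by_cases h8 : 8 * k ≤ M2
      · have h1 := F3' h8
        have h2 : s * δ ^ 2 ≤ 2 * u * (4 * M1 ^ 2) := by
          calc s * δ ^ 2 ≤ (2 * u) * (4 * M1 ^ 2) := by gcongr
            _ = _ := by ring
        have h3 : (M2) * M1 ≤ (u * M1) * M1 := by nlinarith
        have h4 := le_of_mul_le_mul_right h3 hM1'
        have h5 : 0 < u * M1 := by positivity
        linarith
      · push Not at h8
        have h1 : Q ^ 2 ≤ 576 * u ^ 2 * M1 ^ 2 := by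
          calc Q ^ 2 ≤ 576 * (u * v) * M1 ^ 2 := F1'
            _ ≤ 576 * (u * u) * M1 ^ 2 := by gcongr
            _ = _ := by ring
        have h2 : Q ^ 2 ≤ (24 * (u * M1)) ^ 2 := by
          calc Q ^ 2 ≤ _ := h1
            _ = _ := by ring
        have h3 : Q ≤ 24 * (u * M1) := by
          have h4 : 0 ≤ 24 * (u * M1) := by positivity
          exact (pow_le_pow_iff_left₀ hQ.le h4 two_ne_zero).mp h2
        linarith
    refine ⟨le_min (by linarith) ?_, (min_le_right _ _).trans ?_, le_min (by linarith) ?_,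
      (min_le_right _ _).trans ?_⟩
    · rw [div_le_iff₀ hM1']
      have h5 : 0 < u * M1 := by positivity
      linarith
    · have : 0 < M2 / M1 := by positivity
      linarith
    · rw [div_le_iff₀ hMM]
      calc Q ^ 2 ≤ 576 * (u * v) * M1 ^ 2 := F1'
        _ = 576 * v * M1 * (u * M1) := by ring
        _ ≤ 576 * v * M1 * (272 * M2) := by gcongr
        _ ≤ 200000 * v * (M1 * M2) := by nlinarith [mul_pos hv hMM]
    · have h1 : u * v * (M1 ^ 2 / 4) ≤ 202 * Q ^ 2 :=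
        (mul_le_mul_of_nonneg_left hδ4 huv.le).trans F2
      have h2 : 200000 * (Q ^ 2 / (M1 * M2)) = 200000 * Q ^ 2 / (M1 * M2) := by ring
      rw [h2, le_div_iff₀ hMM]
      calc v * (M1 * M2) = v * M1 * M2 := by ring
        _ ≤ v * M1 * (192 * (u * M1)) := by gcongr
        _ = 768 * (u * v * (M1 ^ 2 / 4)) := by ring
        _ ≤ 768 * (202 * Q ^ 2) := by gcongr
        _ ≤ 200000 * Q ^ 2 := by nlinarith [sq_nonneg Q]
  · push Not at hc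
    -- `M1 ≤ 2 M2`
    have hr2 : 1 ≤ 2 * (M2 / M1) := by
      have : 2 * (M2 / M1) = 2 * M2 / M1 := by ring
      rw [this, le_div_iff₀ hM1']
      linarith
    have hu1 : u * δ ^ 2 ≤ 68 * M1 ^ 2 := by
      have h1 : u ≤ 2 * (34 * M1 ^ 2 / δ ^ 2) := by
        refine F4 _ ?_ ?_ ?_
        · rw [le_div_iff₀ hδ2p]
          nlinarith
        · have h2 : 2 * (34 * M1 ^ 2 / δ ^ 2) ^ 2 * δ ^ 2 = 2312 * M1 ^ 4 / δ ^ 2 := by
            field_simp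
            norm_num
          rw [h2, le_div_iff₀ hδ2p]
          have h3 : Q ^ 2 ≤ M1 ^ 2 := by
            have : Q ≤ M1 := hQ3.trans h21
            gcongr
          calc 36 * Q ^ 2 * δ ^ 2 ≤ 36 * M1 ^ 2 * (4 * M1 ^ 2) := by gcongr
            _ ≤ 2312 * M1 ^ 4 := by nlinarith [pow_pos hM1' 4]
        · have h2 : 1 ≤ 2 * (34 * M1 ^ 2 / δ ^ 2) := by
            have h3 : 2 * (34 * M1 ^ 2 / δ ^ 2) = 68 * M1 ^ 2 / δ ^ 2 := by ring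
            rw [h3, le_div_iff₀ hδ2p]
            nlinarith
          linarith
      have h2 : 2 * (34 * M1 ^ 2 / δ ^ 2) = 68 * M1 ^ 2 / δ ^ 2 := by ring
      rwa [h2, le_div_iff₀ hδ2p] at h1
    have hlow : 1 / 384 ≤ u ∧ min 1 v ≤ 256 * (Q ^ 2 / (M1 * M2)) := by
      by_cases h8 : 8 * k ≤ M2
      · have h1 := F3' h8
        have h2 : 8 * (M1 * M2) ≤ 2 * u * δ ^ 2 :=
          h1.trans (mul_le_mul_of_nonneg_right hsu hδ2p.le)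
        have h3 : 2 * M1 ^ 2 ≤ u * δ ^ 2 := by nlinarith
        constructor
        · have h4 : (1 / 2) * M1 ^ 2 ≤ u * M1 ^ 2 := by
            have : u * δ ^ 2 ≤ u * (4 * M1 ^ 2) := by gcongr
            nlinarith
          have h5 := le_of_mul_le_mul_right h4 (by positivity)
          linarith
        · refine (min_le_right _ _).trans ?_
          have h4 : 256 * (Q ^ 2 / (M1 * M2)) = 256 * Q ^ 2 / (M1 * M2) := by ring
          rw [h4, le_div_iff₀ hMM]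
          have h5 : v * (2 * M1 ^ 2) ≤ 202 * Q ^ 2 := by
            calc v * (2 * M1 ^ 2) ≤ v * (u * δ ^ 2) := by gcongr
              _ = u * v * δ ^ 2 := by ring
              _ ≤ _ := F2
          have h6 : v * (M1 * M2) ≤ v * M1 ^ 2 := by
            rw [sq]; gcongr
          nlinarith [sq_nonneg Q]
      · push Not at h8
        have h1 : M1 < 16 * Q := by linarith
        constructor
        · have h2 : Q ^ 2 ≤ (24 * (u * M1)) ^ 2 := by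
            calc Q ^ 2 ≤ 576 * (u * v) * M1 ^ 2 := F1'
              _ ≤ 576 * (u * u) * M1 ^ 2 := by gcongr
              _ = _ := by ring
          have h3 : Q ≤ 24 * (u * M1) := by
            have h4 : 0 ≤ 24 * (u * M1) := by positivity
            exact (pow_le_pow_iff_left₀ hQ.le h4 two_ne_zero).mp h2
          have h5 : (1 / 384) * M1 ≤ u * M1 := by linarith
          exact le_of_mul_le_mul_right h5 hM1'
        · refine (min_le_left _ _).trans ?_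
          have h4 : 256 * (Q ^ 2 / (M1 * M2)) = 256 * Q ^ 2 / (M1 * M2) := by ring
          rw [h4, le_div_iff₀ hMM]
          nlinarith
    refine ⟨le_min (by linarith) (by linarith), ?_, le_min (by linarith) ?_, ?_⟩
    · have h1 : min 1 u ≤ 1 := min_le_left _ _
      linarith
    · rw [div_le_iff₀ hMM]
      have h1 : Q ^ 2 ≤ 144 * (v * (68 * M1 ^ 2)) := by
        calc Q ^ 2 ≤ 144 * (u * v * δ ^ 2) := F1
          _ = 144 * (v * (u * δ ^ 2)) := by ring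
          _ ≤ 144 * (v * (68 * M1 ^ 2)) := by gcongr
      have h2 : v * M1 ^ 2 ≤ 2 * (v * (M1 * M2)) := by
        have : v * M1 * M1 ≤ v * M1 * (2 * M2) := by gcongr
        nlinarith
      have h3 : 0 < v * (M1 * M2) := by positivity
      nlinarith
    · have : 0 ≤ Q ^ 2 / (M1 * M2) := by positivity
      linarith [hlow.2]

theorem CFAa_P {k δ Q M1 : ℝ} {x y : ℂ} (hk : 0 < k) (hQ2 : k ≤ Q) (hM1 : M1 ≤ 1 / 4)
    (hδ0 : 0 < δ) (hδ : δ ≤ 2 * M1)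
    (h1 : k * ‖x + y‖ * δ ^ 2 ≤ 101 * Q ^ 2) (h2 : ‖x‖ * ‖y‖ * δ ^ 2 ≤ 36 * Q ^ 2) :
    k * ‖x‖ * δ ^ 2 ≤ 202 * Q ^ 2 := by
  have hQ : 0 < Q := hk.trans_le hQ2
  by_cases hc : ‖x‖ ≤ 2 * ‖x + y‖
  · calc k * ‖x‖ * δ ^ 2 ≤ k * (2 * ‖x + y‖) * δ ^ 2 := by gcongr
      _ = 2 * (k * ‖x + y‖ * δ ^ 2) := by ring
      _ ≤ _ := by linarith
  · push Not at hc
    have h3 : ‖x‖ - ‖x + y‖ ≤ ‖y‖ := by
      have := norm_sub_le (x + y) y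
      have h4 : x + y - y = x := by ring
      rw [h4] at this
      linarith
    have h4 : ‖x‖ / 2 ≤ ‖y‖ := by linarith
    have h5 : (‖x‖ * δ) ^ 2 ≤ (9 * Q) ^ 2 := by
      have : ‖x‖ * (‖x‖ / 2) * δ ^ 2 ≤ ‖x‖ * ‖y‖ * δ ^ 2 := by gcongr
      nlinarith
    have h6 : ‖x‖ * δ ≤ 9 * Q :=
      (pow_le_pow_iff_left₀ (by positivity) (by positivity) two_ne_zero).mp h5
    have h7 : k * δ ≤ Q := by nlinarith
    calc k * ‖x‖ * δ ^ 2 = (‖x‖ * δ) * (k * δ) := by ring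
      _ ≤ (9 * Q) * Q := by gcongr
      _ ≤ _ := by nlinarith [sq_nonneg Q]

theorem st_CFAa : ST_CFAa := by
  refine ⟨200000, by norm_num, ?_⟩
  intro κ s₁ s₂ x y hκ0 hκ hs hR1 hR2 h21 hM1 hyx
  have hk : 0 < ‖κ‖ := norm_pos_iff.mpr hκ0
  have hd : 0 < ‖s₁ - s₂‖ := norm_pos_iff.mpr (sub_ne_zero.mpr hs)
  have ha := CFAb_a4 hκ
  have hm := CFAb_m hκ
  have hk1 : ‖κ‖ ≤ mk κ s₁ := le_max_right _ _
  have hs1 : ‖s₁‖ ≤ mk κ s₁ := le_max_left _ _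
  have hk2 : ‖κ‖ ≤ mk κ s₂ := le_max_right _ _
  have hs2 : ‖s₂‖ ≤ mk κ s₂ := le_max_left _ _
  have hkx : ‖κ‖ ≤ mk κ x := le_max_right _ _
  have hxx : ‖x‖ ≤ mk κ x := le_max_left _ _
  have hky : ‖κ‖ ≤ mk κ y := le_max_right _ _
  have hyy : ‖y‖ ≤ mk κ y := le_max_left _ _
  have hQ1 : mk κ s₁ * mk κ s₂ ≤ max (mk κ s₁ * mk κ s₂) ‖κ‖ := le_max_left _ _
  have hQ2 : ‖κ‖ ≤ max (mk κ s₁ * mk κ s₂) ‖κ‖ := le_max_right _ _
  have hM1p : 0 < mk κ s₁ := hk.trans_le hk1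
  have hM2p : 0 < mk κ s₂ := hk.trans_le hk2
  have hQ3 : max (mk κ s₁ * mk κ s₂) ‖κ‖ ≤ mk κ s₂ := max_le
    (mul_le_of_le_one_left hM2p.le (by linarith)) hk2
  have hc1 : ‖κ‖ < mk κ s₁ → ‖s₁‖ = mk κ s₁ := by
    intro h
    unfold mk at h ⊢
    rcases max_choice ‖s₁‖ ‖κ‖ with h' | h'
    · exact h'.symm
    · rw [h'] at h; exact absurd h (lt_irrefl _)
  have hc2 : ‖κ‖ < mk κ s₂ → ‖s₂‖ = mk κ s₂ := by
    intro h
    unfold mk at h ⊢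
    rcases max_choice ‖s₂‖ ‖κ‖ with h' | h'
    · exact h'.symm
    · rw [h'] at h; exact absurd h (lt_irrefl _)
  have hxm : mk κ x = max ‖x‖ ‖κ‖ := rfl
  have hym : mk κ y = max ‖y‖ ‖κ‖ := rfl
  generalize hM1e : mk κ s₁ = M1 at *
  generalize hM2e : mk κ s₂ = M2 at *
  generalize hQe : max (M1 * M2) ‖κ‖ = Q at *
  have hQ : 0 < Q := hk.trans_le hQ2
  have hδ : ‖s₁ - s₂‖ ≤ 2 * M1 := by
    have := norm_sub_le s₁ s₂
    linarith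
  have hδ2 : 2 * M2 < M1 → M1 / 2 ≤ ‖s₁ - s₂‖ := by
    intro h
    have h1 := hc1 (by linarith)
    have := norm_sub_norm_le s₁ s₂
    linarith
  have hst : ‖s₁ * s₂‖ ≤ M1 * M2 := by
    rw [norm_mul]; gcongr
  -- norms of `a` and `b`
  set a : ℂ := s₁ * s₂ - κ * (4 + κ) with hadef
  set b : ℂ := (s₁ + κ) * (s₂ + κ) + 4 * κ with hbdef
  have E1 : ‖x‖ * ‖y‖ * ‖s₁ - s₂‖ ^ 2 = ‖a‖ ^ 2 := by
    rw [← norm_pow a 2, ← hR2, norm_mul, norm_mul, norm_pow]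
  have hRb : (x + κ) * (y + κ) * (s₁ - s₂) ^ 2 = b ^ 2 := by
    rw [hbdef]
    linear_combination hR2 + κ * hR1
  have E2 : ‖x + κ‖ * ‖y + κ‖ * ‖s₁ - s₂‖ ^ 2 = ‖b‖ ^ 2 := by
    rw [← norm_pow b 2, ← hRb, norm_mul, norm_mul, norm_pow]
  have E3 : κ * (x + y) * (s₁ - s₂) ^ 2 = b ^ 2 - a ^ 2 - κ ^ 2 * (s₁ - s₂) ^ 2 := by
    linear_combination hRb - hR2
  have hna : ‖a‖ ≤ 6 * Q := by
    have := norm_sub_le (s₁ * s₂) (κ * (4 + κ))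
    linarith
  have hnb : ‖b‖ ≤ 8 * Q := by
    have h1 := norm_add_le ((s₁ + κ) * (s₂ + κ)) (4 * κ)
    rw [norm_mul, norm_mul, Complex.norm_ofNat] at h1
    have h2 : ‖s₁ + κ‖ ≤ 2 * M1 := (norm_add_le _ _).trans (by linarith)
    have h3 : ‖s₂ + κ‖ ≤ 2 * M2 := (norm_add_le _ _).trans (by linarith)
    have h4 : ‖s₁ + κ‖ * ‖s₂ + κ‖ ≤ (2 * M1) * (2 * M2) := by gcongr
    have h5 : ‖b‖ ≤ ‖s₁ + κ‖ * ‖s₂ + κ‖ + 4 * ‖κ‖ := h1
    linarith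
  have hba : 374 / 100 * (2 * ‖κ‖) ≤ ‖b‖ + ‖a‖ := by
    have h1 : b - a = κ * (8 + 2 * κ + (s₁ + s₂)) := by rw [hadef, hbdef]; ring
    have h2 : 748 / 100 ≤ ‖8 + 2 * κ + (s₁ + s₂)‖ := by
      have h3 := norm_sub_norm_le (8 : ℂ) (-(2 * κ + (s₁ + s₂)))
      have h4 : (8 : ℂ) - -(2 * κ + (s₁ + s₂)) = 8 + 2 * κ + (s₁ + s₂) := by ring
      rw [h4, norm_neg, Complex.norm_ofNat] at h3
      have h5 := norm_add_le (2 * κ) (s₁ + s₂)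
      rw [norm_mul, Complex.norm_ofNat] at h5
      have h6 := norm_add_le s₁ s₂
      linarith
    have h3 := norm_sub_le b a
    rw [h1, norm_mul] at h3
    have h4 := mul_le_mul_of_nonneg_left h2 hk.le
    linarith
  have hab : Q ≤ 6 * ‖a‖ ∨ Q ≤ 6 * ‖b‖ := by
    by_contra h
    push Not at h
    obtain ⟨h1, h2⟩ := h
    by_cases h3 : M1 * M2 ≤ 20 * ‖κ‖
    · have h4 : Q ≤ 20 * ‖κ‖ := by
        rw [← hQe]; exact max_le h3 (by linarith)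
      linarith
    · push Not at h3
      have h4 : ‖κ‖ < M1 := by
        have := mul_le_mul_of_nonneg_left (h21.trans hM1) hM1p.le
        linarith
      have h5 : ‖κ‖ < M2 := by
        have := mul_le_mul_of_nonneg_right hM1 hM2p.le
        linarith
      have h6 : Q = M1 * M2 := by
        rw [← hQe]; exact max_eq_left (by linarith)
      have h7 := norm_sub_norm_le (s₁ * s₂) (κ * (4 + κ))
      rw [norm_mul s₁, hc1 h4, hc2 h5] at h7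
      linarith
  have hu0 : 0 < mk κ x := hk.trans_le hkx
  have hv0 : 0 < mk κ y := hk.trans_le hky
  have F1 : Q ^ 2 ≤ 144 * (mk κ x * mk κ y * ‖s₁ - s₂‖ ^ 2) := by
    rcases hab with h | h
    · have h1 : Q ^ 2 ≤ (6 * ‖a‖) ^ 2 := by gcongr
      have h2 : ‖x‖ * ‖y‖ * ‖s₁ - s₂‖ ^ 2 ≤ mk κ x * mk κ y * ‖s₁ - s₂‖ ^ 2 := by gcongr
      have h3 : 0 ≤ mk κ x * mk κ y * ‖s₁ - s₂‖ ^ 2 := by positivity
      have h4 : (6 * ‖a‖) ^ 2 = 36 * ‖a‖ ^ 2 := by ring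
      rw [h4, ← E1] at h1
      linarith
    · have h1 : Q ^ 2 ≤ (6 * ‖b‖) ^ 2 := by gcongr
      have h2 : ‖x + κ‖ ≤ 2 * mk κ x := (norm_add_le _ _).trans (by linarith)
      have h3 : ‖y + κ‖ ≤ 2 * mk κ y := (norm_add_le _ _).trans (by linarith)
      have h4 : ‖x + κ‖ * ‖y + κ‖ * ‖s₁ - s₂‖ ^ 2 ≤
          (2 * mk κ x) * (2 * mk κ y) * ‖s₁ - s₂‖ ^ 2 := by gcongr
      have h5 : (6 * ‖b‖) ^ 2 = 36 * ‖b‖ ^ 2 := by ring
      have h6 : (2 * mk κ x) * (2 * mk κ y) * ‖s₁ - s₂‖ ^ 2 =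
        4 * (mk κ x * mk κ y * ‖s₁ - s₂‖ ^ 2) := by ring
      rw [h5, ← E2] at h1
      rw [h6] at h4
      linarith
  have hd1 : ‖s₁ - s₂‖ ^ 2 ≤ 1 := by
    have : ‖s₁ - s₂‖ ≤ 1 := by linarith
    exact pow_le_one₀ hd.le this
  have hG1 : ‖κ‖ * ‖x + y‖ * ‖s₁ - s₂‖ ^ 2 ≤ 101 * Q ^ 2 := by
    have h1 : ‖κ‖ * ‖x + y‖ * ‖s₁ - s₂‖ ^ 2 = ‖b ^ 2 - a ^ 2 - κ ^ 2 * (s₁ - s₂) ^ 2‖ := by
      rw [← E3, norm_mul, norm_mul, norm_pow]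
    rw [h1]
    have h2 := norm_sub_le (b ^ 2 - a ^ 2) (κ ^ 2 * (s₁ - s₂) ^ 2)
    have h3 := norm_sub_le (b ^ 2) (a ^ 2)
    rw [norm_mul, norm_pow, norm_pow] at h2
    rw [norm_pow, norm_pow] at h3
    have h4 : ‖b‖ ^ 2 ≤ 64 * Q ^ 2 := by
      calc ‖b‖ ^ 2 ≤ (8 * Q) ^ 2 := by gcongr
        _ = _ := by ring
    have h5 : ‖a‖ ^ 2 ≤ 36 * Q ^ 2 := by
      calc ‖a‖ ^ 2 ≤ (6 * Q) ^ 2 := by gcongr
        _ = _ := by ring
    have h7 : ‖κ‖ ^ 2 * ‖s₁ - s₂‖ ^ 2 ≤ Q ^ 2 * 1 := by gcongr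
    linarith
  have hG2 : ‖x‖ * ‖y‖ * ‖s₁ - s₂‖ ^ 2 ≤ 36 * Q ^ 2 := by
    rw [E1]
    calc ‖a‖ ^ 2 ≤ (6 * Q) ^ 2 := by gcongr
      _ = _ := by ring
  have hPx := CFAa_P hk hQ2 hM1 hd hδ hG1 hG2
  have hPy := CFAa_P (x := y) (y := x) hk hQ2 hM1 hd hδ (by rwa [add_comm]) (by rwa [mul_comm ‖y‖])
  have hQQ : 0 ≤ Q ^ 2 := sq_nonneg Q
  have F2 : mk κ x * mk κ y * ‖s₁ - s₂‖ ^ 2 ≤ 202 * Q ^ 2 := by
    rw [hxm, hym]
    rcases max_choice ‖x‖ ‖κ‖ with h1 | h1 <;> rcases max_choice ‖y‖ ‖κ‖ with h2 | h2 <;>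
      rw [h1, h2]
    · linarith
    · have h3 : ‖x‖ * ‖κ‖ * ‖s₁ - s₂‖ ^ 2 = ‖κ‖ * ‖x‖ * ‖s₁ - s₂‖ ^ 2 := by ring
      linarith
    · linarith
    · have h7 : ‖κ‖ * ‖κ‖ * ‖s₁ - s₂‖ ^ 2 ≤ Q * Q * 1 := by gcongr
      have h8 : Q * Q * 1 = Q ^ 2 := by ring
      linarith
  have hE4 : ‖x + y‖ * ‖s₁ - s₂‖ ^ 2 =
      ‖2 * (s₁ + s₂) * (s₁ * s₂ + κ * (4 + κ)) + 4 * (4 + 2 * κ) * (s₁ * s₂)‖ := by
    rw [← hR1, norm_mul, norm_pow]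
  have hss : ‖s₁ + s₂‖ ≤ 2 * M1 := (norm_add_le _ _).trans (by linarith)
  have F3 : ‖x + y‖ * ‖s₁ - s₂‖ ^ 2 ≤ 34 * (M1 * M2) := by
    rw [hE4]
    have h2 : ‖s₁ * s₂ + κ * (4 + κ)‖ ≤ M1 * M2 + 401 / 100 * ‖κ‖ :=
      (norm_add_le _ _).trans (by linarith)
    calc ‖2 * (s₁ + s₂) * (s₁ * s₂ + κ * (4 + κ)) + 4 * (4 + 2 * κ) * (s₁ * s₂)‖
        ≤ ‖2 * (s₁ + s₂) * (s₁ * s₂ + κ * (4 + κ))‖ + ‖4 * (4 + 2 * κ) * (s₁ * s₂)‖ :=
          norm_add_le _ _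
      _ = 2 * ‖s₁ + s₂‖ * ‖s₁ * s₂ + κ * (4 + κ)‖ + 4 * ‖4 + 2 * κ‖ * ‖s₁ * s₂‖ := by
        rw [norm_mul, norm_mul, norm_mul (4 * (4 + 2 * κ)), norm_mul 4, Complex.norm_ofNat,
          Complex.norm_ofNat]
      _ ≤ 2 * (2 * M1) * (M1 * M2 + 401 / 100 * ‖κ‖) + 4 * (402 / 100) * (M1 * M2) := by
        gcongr
      _ ≤ 34 * (M1 * M2) := by
        have h3 : M1 * ‖κ‖ ≤ M1 * M2 := by gcongr
        have h4 : M1 * (M1 * M2) ≤ 1 / 4 * (M1 * M2) := by gcongr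
        have h5 : 2 * (2 * M1) * (M1 * M2 + 401 / 100 * ‖κ‖) + 4 * (402 / 100) * (M1 * M2) =
          4 * (M1 * (M1 * M2)) + 1604 / 100 * (M1 * ‖κ‖) + 1608 / 100 * (M1 * M2) := by ring
        have h6 : 0 ≤ M1 * M2 := by positivity
        rw [h5]
        linarith
  have F3' : 8 * ‖κ‖ ≤ M2 → 8 * (M1 * M2) ≤ ‖x + y‖ * ‖s₁ - s₂‖ ^ 2 := by
    intro h8
    have h1 := hc1 (by linarith)
    have h2 := hc2 (by linarith)
    have h3 : ‖s₁ * s₂‖ = M1 * M2 := by rw [norm_mul, h1, h2]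
    rw [hE4]
    have h4 : 2 * (s₁ + s₂) * (s₁ * s₂ + κ * (4 + κ)) + 4 * (4 + 2 * κ) * (s₁ * s₂) =
        16 * (s₁ * s₂) - -(2 * (s₁ + s₂) * (s₁ * s₂ + κ * (4 + κ)) + 8 * κ * (s₁ * s₂)) := by
      ring
    rw [h4]
    have h5 := norm_sub_norm_le (16 * (s₁ * s₂))
      (-(2 * (s₁ + s₂) * (s₁ * s₂ + κ * (4 + κ)) + 8 * κ * (s₁ * s₂)))
    rw [norm_neg, norm_mul 16, Complex.norm_ofNat, h3] at h5
    have h6 : ‖s₁ * s₂ + κ * (4 + κ)‖ ≤ M1 * M2 + 401 / 100 * ‖κ‖ :=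
      (norm_add_le _ _).trans (by linarith)
    have h7 : ‖2 * (s₁ + s₂) * (s₁ * s₂ + κ * (4 + κ)) + 8 * κ * (s₁ * s₂)‖ ≤ 8 * (M1 * M2) := by
      calc ‖2 * (s₁ + s₂) * (s₁ * s₂ + κ * (4 + κ)) + 8 * κ * (s₁ * s₂)‖
          ≤ ‖2 * (s₁ + s₂) * (s₁ * s₂ + κ * (4 + κ))‖ + ‖8 * κ * (s₁ * s₂)‖ := norm_add_le _ _
        _ = 2 * ‖s₁ + s₂‖ * ‖s₁ * s₂ + κ * (4 + κ)‖ + 8 * ‖κ‖ * (M1 * M2) := by
          rw [norm_mul, norm_mul, norm_mul (8 * κ), norm_mul 8, Complex.norm_ofNat,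
            Complex.norm_ofNat, h3]
        _ ≤ 2 * (2 * M1) * (M1 * M2 + 401 / 100 * ‖κ‖) + 8 * (1 / 100) * (M1 * M2) := by
          gcongr
        _ ≤ 8 * (M1 * M2) := by
          have h8' : M1 * (8 * ‖κ‖) ≤ M1 * M2 := by gcongr
          have h9 : M1 * (M1 * M2) ≤ 1 / 4 * (M1 * M2) := by gcongr
          have h10 : 2 * (2 * M1) * (M1 * M2 + 401 / 100 * ‖κ‖) + 8 * (1 / 100) * (M1 * M2) =
            4 * (M1 * (M1 * M2)) + 1604 / 800 * (M1 * (8 * ‖κ‖)) + 8 / 100 * (M1 * M2) := by ring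
          have h11 : 0 ≤ M1 * M2 := by positivity
          rw [h10]
          linarith
    linarith
  have hsu : ‖x + y‖ ≤ 2 * mk κ x := (norm_add_le _ _).trans (by linarith)
  refine CFAa_real hk hk2 h21 hM1 hQ1 hQ2 hQ3 hd hδ hδ2 F1 F2 F3 F3' (norm_nonneg _) hsu hky hyx ?_
  intro c h1 h2 h3
  rw [hxm]
  refine max_le (CFAb_V h1 ?_) h3
  have h4 : (‖x‖ * ‖y‖) * ‖s₁ - s₂‖ ^ 2 ≤ (2 * c ^ 2) * ‖s₁ - s₂‖ ^ 2 := hG2.trans h2
  exact le_of_mul_le_mul_right h4 (by positivity)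

end Pool.Agent.Helper42.LK

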