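import Pool.Agent.Helper42.LK.Defs

/-! # Modules CFAb and CFAa: folded addition law at a complex place -/

namespace Pool.Agent.Helper42.LK

open Pool.Agent.Helper42.LS

/-- Size of a root from the sum and the product. -/
theorem CFAb_V {x y : ℂ} {a : ℝ} (h1 : ‖x + y‖ ≤ a) (h2 : ‖x‖ * ‖y‖ ≤ 2 * a ^ 2) : ‖x‖ ≤ 2 * a := by
  by_contra h
  push Not at h
  have ha : 0 ≤ a := (norm_nonneg _).trans h1
  have h3 : ‖x‖ - ‖x + y‖ ≤ ‖y‖ := by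
    have := norm_sub_le (x + y) y
    have h4 : x + y - y = x := by ring
    rw [h4] at this
    linarith
  have h5 : a < ‖y‖ := by linarith
  have h6 : 2 * a * a < ‖x‖ * ‖y‖ := mul_lt_mul'' h h5 (by linarith) ha
  nlinarith

theorem CFAb_a4 {κ : ℂ} (hκ : ‖κ‖ ≤ 1 / 100) : ‖κ * (4 + κ)‖ ≤ 401 / 100 * ‖κ‖ := by
  rw [norm_mul]
  have h1 : ‖4 + κ‖ ≤ 4 + ‖κ‖ := by
    have := norm_add_le (4 : ℂ) κ
    rwa [Complex.norm_ofNat] at this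
  nlinarith [norm_nonneg κ]

theorem CFAb_m {κ : ℂ} (hκ : ‖κ‖ ≤ 1 / 100) : ‖4 + 2 * κ‖ ≤ 402 / 100 := by
  have := norm_add_le (4 : ℂ) (2 * κ)
  rw [norm_mul, Complex.norm_ofNat, Complex.norm_ofNat] at this
  linarith

/-- Upper bounds for the coefficients. -/
theorem CFAb_U {κ s t : ℂ} {X : ℝ} (hκ : ‖κ‖ ≤ 1 / 100) (hX : ‖κ‖ ≤ X) (ht : ‖t‖ ≤ X)
    (hs : 1 / 4 ≤ ‖s‖) (hts : ‖t‖ ≤ ‖s‖ / 2) :
    ‖2 * (s + t) * (s * t + κ * (4 + κ)) + 4 * (4 + 2 * κ) * (s * t)‖ ≤ 116 * X * ‖s‖ ^ 2 ∧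
    ‖s * t - κ * (4 + κ)‖ ^ 2 ≤ 291 * X ^ 2 * ‖s‖ ^ 2 ∧ ‖s‖ / 2 ≤ ‖s - t‖ := by
  have ha := CFAb_a4 hκ
  have hm := CFAb_m hκ
  have hX0 : 0 ≤ X := (norm_nonneg _).trans hX
  have hst : ‖s * t‖ ≤ ‖s‖ * X := by
    rw [norm_mul]; exact mul_le_mul_of_nonneg_left ht (norm_nonneg _)
  have hsX : X ≤ 4 * (‖s‖ * X) := by nlinarith
  refine ⟨?_, ?_, ?_⟩
  · have h1 : ‖s + t‖ ≤ 3 / 2 * ‖s‖ := by
      have := norm_add_le s t
      linarith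
    have h2 : ‖s * t + κ * (4 + κ)‖ ≤ 1704 / 100 * (‖s‖ * X) := by
      have := norm_add_le (s * t) (κ * (4 + κ))
      linarith
    calc ‖2 * (s + t) * (s * t + κ * (4 + κ)) + 4 * (4 + 2 * κ) * (s * t)‖
        ≤ ‖2 * (s + t) * (s * t + κ * (4 + κ))‖ + ‖4 * (4 + 2 * κ) * (s * t)‖ := norm_add_le _ _
      _ = 2 * ‖s + t‖ * ‖s * t + κ * (4 + κ)‖ + 4 * ‖4 + 2 * κ‖ * ‖s * t‖ := by
        rw [norm_mul, norm_mul, norm_mul (4 * (4 + 2 * κ)), norm_mul 4, Complex.norm_ofNat,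
          Complex.norm_ofNat]
      _ ≤ 2 * (3 / 2 * ‖s‖) * (1704 / 100 * (‖s‖ * X)) + 4 * (402 / 100) * (‖s‖ * X) := by
        gcongr
      _ ≤ 116 * X * ‖s‖ ^ 2 := by nlinarith [mul_nonneg (norm_nonneg s) hX0]
  · have h2 : ‖s * t - κ * (4 + κ)‖ ≤ 1704 / 100 * (‖s‖ * X) := by
      have := norm_sub_le (s * t) (κ * (4 + κ))
      linarith
    calc ‖s * t - κ * (4 + κ)‖ ^ 2 ≤ (1704 / 100 * (‖s‖ * X)) ^ 2 := by gcongr
      _ ≤ 291 * X ^ 2 * ‖s‖ ^ 2 := by nlinarith [sq_nonneg (‖s‖ * X)]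
  · have := norm_sub_norm_le s t
    linarith

theorem st_CFAb : ST_CFAb := by
  refine ⟨10000, by norm_num, ?_⟩
  intro κ s₁ s₂ x y hκ0 hκ hs hR1 hR2 hM
  have hk : 0 < ‖κ‖ := norm_pos_iff.mpr hκ0
  have hs1 : 1 / 4 < ‖s₁‖ := by
    unfold mk at hM
    rcases lt_max_iff.mp hM with h | h
    · exact h
    · linarith
  have hs1' : (0 : ℝ) < ‖s₁‖ ^ 2 := by positivity
  have hd : 0 < ‖s₁ - s₂‖ := norm_pos_iff.mpr (sub_ne_zero.mpr hs)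
  have ha := CFAb_a4 hκ
  have hkx : ‖κ‖ ≤ mk κ x := le_max_right _ _
  have hxx : ‖x‖ ≤ mk κ x := le_max_left _ _
  have hkx2 : ‖κ‖ ≤ mk κ s₂ := le_max_right _ _
  have hxx2 : ‖s₂‖ ≤ mk κ s₂ := le_max_left _ _
  have hx0 : 0 < mk κ x := hk.trans_le hkx
  have hM20 : 0 < mk κ s₂ := hk.trans_le hkx2
  by_cases hM2 : mk κ s₂ ≤ 1 / 8
  · -- `s₂` small
    obtain ⟨hA, hB, hC⟩ := CFAb_U hκ hkx2 hxx2 hs1.le (by linarith)
    rw [← hR1, norm_mul, norm_pow] at hA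
    have hN : ‖x‖ * ‖y‖ * ‖s₁ - s₂‖ ^ 2 = ‖s₁ * s₂ - κ * (4 + κ)‖ ^ 2 := by
      rw [← norm_pow (s₁ * s₂ - κ * (4 + κ)) 2, ← hR2, norm_mul, norm_mul, norm_pow]
    rw [← hN] at hB
    have hC2 : ‖s₁‖ ^ 2 / 4 ≤ ‖s₁ - s₂‖ ^ 2 := by nlinarith
    have h1 : ‖x + y‖ ≤ 464 * mk κ s₂ := by
      have h2 : ‖x + y‖ * (‖s₁‖ ^ 2 / 4) ≤ 116 * mk κ s₂ * ‖s₁‖ ^ 2 :=
        (mul_le_mul_of_nonneg_left hC2 (norm_nonneg _)).trans hA
      have h3 : (‖x + y‖) * ‖s₁‖ ^ 2 ≤ (464 * mk κ s₂) * ‖s₁‖ ^ 2 := by linarith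
      exact le_of_mul_le_mul_right h3 hs1'
    have h2 : ‖x‖ * ‖y‖ ≤ 1164 * mk κ s₂ ^ 2 := by
      have h2 : ‖x‖ * ‖y‖ * (‖s₁‖ ^ 2 / 4) ≤ 291 * mk κ s₂ ^ 2 * ‖s₁‖ ^ 2 :=
        (mul_le_mul_of_nonneg_left hC2 (by positivity)).trans hB
      have h3 : (‖x‖ * ‖y‖) * ‖s₁‖ ^ 2 ≤ (1164 * mk κ s₂ ^ 2) * ‖s₁‖ ^ 2 := by linarith
      exact le_of_mul_le_mul_right h3 hs1'
    have h3 : ‖x‖ ≤ 2 * (464 * mk κ s₂) := CFAb_V h1 (h2.trans (by nlinarith))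
    have h4 : ‖y‖ ≤ 2 * (464 * mk κ s₂) :=
      CFAb_V (by rwa [add_comm]) ((mul_comm ‖y‖ ‖x‖).le.trans (h2.trans (by nlinarith)))
    have h5 : mk κ x ≤ 928 * mk κ s₂ := max_le (by linarith) (by linarith)
    have h6 : mk κ s₂ ≤ 10000 * mk κ x := by
      by_cases hc : mk κ s₂ ≤ 40 * ‖κ‖
      · linarith
      · push Not at hc
        have h7 : mk κ s₂ = ‖s₂‖ := by
          unfold mk at hc ⊢
          rcases max_choice ‖s₂‖ ‖κ‖ with h | h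
          · exact h
          · rw [h] at hc; linarith
        rw [h7] at hc h4 h2 hM2 ⊢
        have h8 : ‖s₁‖ * ‖s₂‖ / 2 ≤ ‖s₁ * s₂ - κ * (4 + κ)‖ := by
          have h9 := norm_sub_norm_le (s₁ * s₂) (κ * (4 + κ))
          rw [norm_mul] at h9
          nlinarith [norm_nonneg s₂]
        have h9 : ‖s₁ - s₂‖ ≤ 3 / 2 * ‖s₁‖ := by
          have := norm_sub_le s₁ s₂
          linarith
        have h10 : (‖s₁‖ * ‖s₂‖ / 2) ^ 2 ≤ ‖x‖ * ‖y‖ * ‖s₁ - s₂‖ ^ 2 := by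
          rw [hN]
          have : 0 ≤ ‖s₁‖ * ‖s₂‖ / 2 := by positivity
          gcongr
        have h11 : ‖x‖ * ‖y‖ * ‖s₁ - s₂‖ ^ 2 ≤ ‖x‖ * (928 * ‖s₂‖) * (3 / 2 * ‖s₁‖) ^ 2 := by
          gcongr
          linarith
        have h12 : (‖s₂‖) * (‖s₂‖ * ‖s₁‖ ^ 2) ≤ (8352 * ‖x‖) * (‖s₂‖ * ‖s₁‖ ^ 2) := by
          nlinarith
        have h13 : 0 < ‖s₂‖ := by linarith
        have h14 := le_of_mul_le_mul_right h12 (by positivity)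
        linarith
    have e1 : min 1 (mk κ s₂) = mk κ s₂ := min_eq_right (by linarith)
    rw [e1]
    constructor
    · rw [mul_min_of_nonneg _ _ (by norm_num)]
      exact le_min (by linarith) h6
    · exact (min_le_right _ _).trans (by linarith)
  · push Not at hM2
    have h7 : 1 / 8 < ‖s₂‖ := by
      unfold mk at hM2
      rcases lt_max_iff.mp hM2 with h | h
      · exact h
      · linarith
    have h8 : 1 / 8 ≤ min 1 (mk κ s₂) := le_min (by norm_num) hM2.le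
    have h9 : min 1 (mk κ s₂) ≤ 1 := min_le_left _ _
    have h10 : 1 / 4000 ≤ mk κ x := by
      by_cases hx : 1 / 16 < ‖x‖
      · linarith
      · push Not at hx
        obtain ⟨hA, hB, hC⟩ := CFAb_U (s := s₁) hκ hkx hxx hs1.le (by linarith)
        have h11 : s₂ ^ 2 * (s₁ - x) ^ 2 =
            (2 * (s₁ + x) * (s₁ * x + κ * (4 + κ)) + 4 * (4 + 2 * κ) * (s₁ * x)) * s₂
            - (s₁ * x - κ * (4 + κ)) ^ 2 := by
          linear_combination x * hR1 - hR2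
        have h12 : ‖s₂‖ ^ 2 * ‖s₁ - x‖ ^ 2 ≤ 116 * mk κ x * ‖s₁‖ ^ 2 * ‖s₂‖ +
            291 * mk κ x ^ 2 * ‖s₁‖ ^ 2 := by
          rw [← norm_pow, ← norm_pow, ← norm_mul, h11]
          refine (norm_sub_le _ _).trans ?_
          rw [norm_mul, norm_pow]
          exact add_le_add (mul_le_mul_of_nonneg_right hA (norm_nonneg _)) hB
        have hC2 : ‖s₁‖ ^ 2 / 4 ≤ ‖s₁ - x‖ ^ 2 := by nlinarith
        have h13 : ‖s₂‖ ^ 2 * (‖s₁‖ ^ 2 / 4) ≤ ‖s₂‖ ^ 2 * ‖s₁ - x‖ ^ 2 :=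
          mul_le_mul_of_nonneg_left hC2 (by positivity)
        have h14 : (‖s₂‖ ^ 2) * ‖s₁‖ ^ 2 ≤ (464 * mk κ x * ‖s₂‖ + 1164 * mk κ x ^ 2) * ‖s₁‖ ^ 2 := by
          linarith
        have h15 := le_of_mul_le_mul_right h14 hs1'
        by_contra h16
        push Not at h16
        nlinarith
    have h11 : 1 / 4000 ≤ min 1 (mk κ x) := le_min (by norm_num) h10
    have h12 : min 1 (mk κ x) ≤ 1 := min_le_left _ _
    constructor <;> linarith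

end Pool.Agent.Helper42.LK

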