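import Pool.Agent.Helper42.LK.Defs

/-! # Module CID: identities for `S k = (Y k / Z k) ^ 2` -/

namespace Pool.Agent.Helper42.LK

open Pool.Agent.Helper42.LS

theorem CID_n {κ Z Y : ℂ} (hZ : Z ≠ 0) (h : Y ^ 2 = Z ^ 3 - (2 + κ) * Z ^ 2 + Z) :
    (Y / Z) ^ 2 * Z = Z ^ 2 - (2 + κ) * Z + 1 := by
  field_simp
  linear_combination h

theorem CID_add {κ Z1 Z2 n1 n2 X3 Y3 : ℂ} (hZ1 : Z1 ≠ 0) (hZ2 : Z2 ≠ 0) (hD : Z1 - Z2 ≠ 0)
    (h1 : n1 ^ 2 * Z1 = Z1 ^ 2 - (2 + κ) * Z1 + 1) (h2 : n2 ^ 2 * Z2 = Z2 ^ 2 - (2 + κ) * Z2 + 1)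
    (hX : X3 = ((n1 * Z1 - n2 * Z2) / (Z1 - Z2)) ^ 2 + (2 + κ) - Z1 - Z2)
    (hY : Y3 = -((n1 * Z1 - n2 * Z2) / (Z1 - Z2) * (X3 - Z1) + n1 * Z1)) (hX0 : X3 ≠ 0) :
    Y3 / X3 * (n1 ^ 2 - n2 ^ 2) = n2 * (Z1 - 1 / Z1) - n1 * (Z2 - 1 / Z2) := by
  have hA : (Z1 - Z2) ^ 2 * X3 = Z1 * Z2 * (n1 - n2) ^ 2 := by
    rw [hX]
    field_simp
    linear_combination (Z1 - Z2) * (h1 - h2)
  have hn : n1 - n2 ≠ 0 := by
    intro h0
    rw [h0] at hA
    have : (Z1 - Z2) ^ 2 * X3 ≠ 0 := mul_ne_zero (pow_ne_zero _ hD) hX0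
    exact this (by rw [hA]; ring)
  have hB : (Z1 - Z2) * (Y3 / X3) * (n1 - n2) =
      -((n1 * Z1 - n2 * Z2) * (n1 - n2) - (Z1 - Z2) ^ 2) := by
    have h3 : (Z1 - Z2) * Y3 * (n1 - n2) =
        -((n1 * Z1 - n2 * Z2) * (n1 - n2) - (Z1 - Z2) ^ 2) * X3 := by
      have h4 : (Z1 - Z2) * Y3 = -((n1 * Z1 - n2 * Z2) * (X3 - Z1) + (Z1 - Z2) * (n1 * Z1)) := by
        rw [hY]
        field_simp
      rw [h4]
      linear_combination -hA
    field_simp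
    linear_combination h3
  have hS : n1 ^ 2 - n2 ^ 2 = (Z1 - Z2) * (1 - 1 / (Z1 * Z2)) := by
    field_simp
    linear_combination Z2 * h1 - Z1 * h2
  have h5 : (Z1 - Z2) * (Y3 / X3 * (n1 ^ 2 - n2 ^ 2)) =
      (Z1 - Z2) * (n2 * (Z1 - 1 / Z1) - n1 * (Z2 - 1 / Z2)) := by
    have h6 : (Z1 - Z2) * (Y3 / X3 * (n1 ^ 2 - n2 ^ 2)) =
        ((Z1 - Z2) * (Y3 / X3) * (n1 - n2)) * (n1 + n2) := by ring
    rw [h6, hB]
    have h7 : -((n1 * Z1 - n2 * Z2) * (n1 - n2) - (Z1 - Z2) ^ 2) * (n1 + n2) =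
        -(n1 * Z1 - n2 * Z2) * (n1 ^ 2 - n2 ^ 2) + (Z1 - Z2) ^ 2 * (n1 + n2) := by ring
    rw [h7, hS]
    field_simp
    ring
  exact mul_left_cancel₀ hD h5

theorem CID_d {κ Z n : ℂ} (hZ : Z ≠ 0) (h1 : n ^ 2 * Z = Z ^ 2 - (2 + κ) * Z + 1) :
    (Z - 1 / Z) ^ 2 = (n ^ 2) ^ 2 + (4 + 2 * κ) * n ^ 2 + κ * (4 + κ) := by
  have hn : n ^ 2 = (Z ^ 2 - (2 + κ) * Z + 1) / Z := by
    rw [eq_div_iff hZ]; exact h1
  rw [hn]
  field_simp
  ring

theorem CID_dbl {κ Z Y : ℂ} (hY : Y ≠ 0) (h : Y ^ 2 = Z ^ 3 + -(2 + κ) * Z ^ 2 + 1 * Z + 0)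
    {X' : ℂ} (hX : X' = ((3 * Z ^ 2 + 2 * -(2 + κ) * Z + 1) / (2 * Y)) ^ 2 - -(2 + κ) - 2 * Z) :
    X' * (4 * Y ^ 2) = (Z ^ 2 - 1) ^ 2 := by
  rw [hX]
  field_simp
  rw [h]
  ring

theorem st_CID : ST_CID := by
  intro κ hκ hκ1 Z Y hG S hS
  have hZ : ∀ k, 1 ≤ k → Z k ≠ 0 := by
    intro k hk h0
    have h1 := hG.curve k hk
    rw [h0] at h1
    exact hG.yne k hk (pow_eq_zero_iff (n := 2) (by norm_num) |>.mp (by rw [h1]; ring))
  have hdbl : ∀ k, 1 ≤ k → Z (2 * k) * (4 * Y k ^ 2) = (Z k ^ 2 - 1) ^ 2 := fun k hk =>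
    CID_dbl (hG.yne k hk) (hG.curve k hk) (hG.dblx k hk)
  have hZ1 : ∀ k, 1 ≤ k → Z k ^ 2 - 1 ≠ 0 := by
    intro k hk h0
    have h1 := hdbl k hk
    rw [h0] at h1
    have : Z (2 * k) * (4 * Y k ^ 2) ≠ 0 :=
      mul_ne_zero (hZ (2 * k) (by omega)) (mul_ne_zero (by norm_num) (pow_ne_zero _ (hG.yne k hk)))
    exact this (by rw [h1]; ring)
  have hn : ∀ k, 1 ≤ k → (Y k / Z k) ^ 2 * Z k = Z k ^ 2 - (2 + κ) * Z k + 1 := fun k hk =>
    CID_n (hZ k hk) (by rw [hG.curve k hk]; ring)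
  have hSk : ∀ k, 1 ≤ k → S k = Z k - (2 + κ) + 1 / Z k := by
    intro k hk
    rw [hS k]
    have h1 := hn k hk
    have h2 := hZ k hk
    have h3 : (Y k / Z k) ^ 2 = (Z k ^ 2 - (2 + κ) * Z k + 1) / Z k := by
      rw [eq_div_iff h2]; exact h1
    rw [h3]
    field_simp
  have hS0 : ∀ k, 1 ≤ k → S k ≠ 0 := by
    intro k hk
    rw [hS k]
    exact pow_ne_zero _ (div_ne_zero (hG.yne k hk) (hZ k hk))
  have hd : ∀ k, 1 ≤ k → (Z k - 1 / Z k) ^ 2 = S k ^ 2 + (4 + 2 * κ) * S k + κ * (4 + κ) := by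
    intro k hk
    rw [hS k]
    exact CID_d (hZ k hk) (hn k hk)
  have hd0 : ∀ k, 1 ≤ k → Z k - 1 / Z k ≠ 0 := by
    intro k hk h0
    apply hZ1 k hk
    have h2 := hZ k hk
    field_simp at h0
    linear_combination h0
  have hdbl2 : ∀ k, 1 ≤ k → Z (2 * k) * (4 * S k) = (Z k - 1 / Z k) ^ 2 := by
    intro k hk
    have h2 := hZ k hk
    have h3 := hdbl k hk
    rw [hS k]
    field_simp
    linear_combination h3
  have hfac : ∀ k, 1 ≤ k → (S k + κ) * (S k + 4 + κ) = (Z k - 1 / Z k) ^ 2 := by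
    intro k hk
    rw [hd k hk]; ring
  refine ⟨fun k hk => ⟨hZ k hk, hS0 k hk, ?_, ?_, hdbl k hk, ?_⟩, ?_⟩
  · intro h0
    have h1 := hfac k hk
    rw [h0, zero_mul] at h1
    exact pow_ne_zero 2 (hd0 k hk) h1.symm
  · intro h0
    have h1 := hfac k hk
    rw [h0, mul_zero] at h1
    exact pow_ne_zero 2 (hd0 k hk) h1.symm
  · have h1 := hSk (2 * k) (by omega)
    have h2 := hdbl2 k hk
    have h3 := hd k hk
    have h4 := hZ (2 * k) (by omega)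
    have h5 : S (2 * k) * Z (2 * k) = Z (2 * k) ^ 2 - (2 + κ) * Z (2 * k) + 1 := by
      rw [h1]; field_simp
    have h6 := hfac k hk
    rw [← h2] at h3 h6
    have h7 : S (2 * k) * (4 * S k * (S k + κ) * (S k + 4 + κ)) =
        16 * S k ^ 2 * (S (2 * k) * Z (2 * k)) := by
      linear_combination S (2 * k) * 4 * S k * h6
    rw [h7, h5]
    linear_combination (Z (2 * k) * (4 * S k) + S k ^ 2 - (4 + 2 * κ) * S k + κ * (4 + κ)) * h3
  · intro k l hl hkl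
    have hk : 1 ≤ k := by omega
    have hD : Z k - Z l ≠ 0 := sub_ne_zero.mpr (hG.xne k l hl hkl)
    have hne : S k ≠ S l := by
      intro h0
      rw [hSk k hk, hSk l hl] at h0
      have hk2 := hZ k hk
      have hl2 := hZ l hl
      have h1 : (Z k - Z l) * (Z k * Z l - 1) = 0 := by
        field_simp at h0
        linear_combination h0
      rcases mul_eq_zero.mp h1 with h2 | h2
      · exact hD h2
      · have h3 : 1 / Z k = Z l := by
          field_simp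
          linear_combination -h2
        have h4 : 1 / Z l = Z k := by
          field_simp
          linear_combination -h2
        have h5 := hdbl2 k hk
        have h6 := hdbl2 l hl
        have h7 : S k = S l := by
          rw [hSk k hk, hSk l hl, h3, h4]; ring
        rw [h3, h7] at h5
        rw [h4] at h6
        have h8 : Z (2 * k) * (4 * S l) = Z (2 * l) * (4 * S l) := by
          rw [h5, h6]; ring
        exact hG.xne (2 * k) (2 * l) (by omega) (by omega)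
          (mul_right_cancel₀ (mul_ne_zero (by norm_num) (hS0 l hl)) h8)
    have hYk : Y k = (Y k / Z k) * Z k := (div_mul_cancel₀ _ (hZ k hk)).symm
    have hYl : Y l = (Y l / Z l) * Z l := (div_mul_cancel₀ _ (hZ l hl)).symm
    have hp : Y (k + l) / Z (k + l) * (S k - S l) =
        (Y l / Z l) * (Z k - 1 / Z k) - (Y k / Z k) * (Z l - 1 / Z l) := by
      rw [hS k, hS l]
      refine CID_add (hZ k hk) (hZ l hl) hD (hn k hk) (hn l hl) ?_ ?_ (hZ (k + l) (by omega))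
      · rw [← hYk, ← hYl, hG.addx k l hl hkl]; ring
      · rw [← hYk, ← hYl]; exact hG.addy k l hl hkl
    have hm : Y (k - l) / Z (k - l) * (S k - S l) =
        -(Y l / Z l) * (Z k - 1 / Z k) - (Y k / Z k) * (Z l - 1 / Z l) := by
      rw [hS k, hS l]
      have h1 := CID_add (κ := κ) (n1 := Y k / Z k) (n2 := -(Y l / Z l)) (hZ k hk) (hZ l hl) hD
        (hn k hk) (by rw [neg_sq]; exact hn l hl) (X3 := Z (k - l)) (Y3 := Y (k - l))
        (by rw [neg_mul, ← hYk, ← hYl, hG.subx k l hl hkl]; ring)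
        (by rw [neg_mul, ← hYk, ← hYl, hG.suby k l hl hkl]; ring) (hZ (k - l) (by omega))
      rw [neg_sq] at h1
      exact h1
    have hp2 : S (k + l) * (S k - S l) ^ 2 =
        ((Y l / Z l) * (Z k - 1 / Z k) - (Y k / Z k) * (Z l - 1 / Z l)) ^ 2 := by
      rw [← hp, hS (k + l)]; ring
    have hm2 : S (k - l) * (S k - S l) ^ 2 =
        (-(Y l / Z l) * (Z k - 1 / Z k) - (Y k / Z k) * (Z l - 1 / Z l)) ^ 2 := by
      rw [← hm, hS (k - l)]; ring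
    have h1 := hd k hk
    have h2 := hd l hl
    have h3 := (hS k).symm
    have h4 := (hS l).symm
    generalize Z k - 1 / Z k = d1 at *
    generalize Z l - 1 / Z l = d2 at *
    generalize Y k / Z k = n1 at *
    generalize Y l / Z l = n2 at *
    refine ⟨hne, ?_, ?_⟩
    · have h5 : (S (k + l) + S (k - l)) * (S k - S l) ^ 2 =
          2 * (n2 ^ 2 * d1 ^ 2 + n1 ^ 2 * d2 ^ 2) := by
        linear_combination hp2 + hm2
      rw [h5, h3, h4, h1, h2]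
      ring
    · have h5 : S (k + l) * S (k - l) * (S k - S l) ^ 2 * (S k - S l) ^ 2 =
          (n2 ^ 2 * d1 ^ 2 - n1 ^ 2 * d2 ^ 2) ^ 2 := by
        have h6 : S (k + l) * S (k - l) * (S k - S l) ^ 2 * (S k - S l) ^ 2 =
          (S (k + l) * (S k - S l) ^ 2) * (S (k - l) * (S k - S l) ^ 2) := by ring
        rw [h6, hp2, hm2]
        ring
      have h7 : (S k - S l) ^ 2 ≠ 0 := pow_ne_zero _ (sub_ne_zero.mpr hne)
      apply mul_right_cancel₀ h7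
      rw [h5, h3, h4, h1, h2]
      ring

end Pool.Agent.Helper42.LK

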